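import Pool.Agent.H32x.MixedCubic

/-!
# A mixed cubic sum of Shapiro Catalan triangle numbers
-/

set_option autoImplicit false

namespace Pool.Agent.Results.MP_651eca_nt.MixedCubicSum

open Finset Pool.Agent.H32x.MixedCubic

/-- The entry `B_{n,k} = (k/n) C(2n, n-k)` of Shapiro's Catalan triangle (`1 ≤ k ≤ n`). -/
def B (n k : ℕ) : ℚ := (k : ℚ) / n * ((2 * n).choose (n - k) : ℚ)

lemma B_eq {n k : ℕ} (hk : k ≤ n) : B n k = (k : ℚ) / n * c n k := by
  unfold B c
  rw [← Nat.choose_symm (show n - k ≤ 2 * n by omega), show 2 * n - (n - k) = n + k by omega]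

lemma sum_eq_Phi {n m : ℕ} (hn : 1 ≤ n) (hm : 1 ≤ m) :
    ∑ k ∈ Icc 1 (min n m), B n k ^ 2 * B m k = Phi (n + 1) n m / (n ^ 2 * m) := by
  have hn0 : (n : ℚ) ≠ 0 := by positivity
  have hm0 : (m : ℚ) ≠ 0 := by positivity
  have h1 : Phi (n + 1) n m = ∑ k ∈ Icc 1 (min n m), (k : ℚ) ^ 3 * c n k ^ 2 * c m k := by
    unfold Phi
    symm
    apply sum_subset
    · intro k hk
      rw [mem_Icc] at hk
      rw [mem_range]
      omega
    · intro k hk hk'
      rw [mem_range] at hk
      rw [mem_Icc] at hk'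
      rcases Nat.eq_zero_or_pos k with h | h
      · subst h; simp
      · have h2 : m < k := by omega
        have h3 : c m k = 0 := by
          unfold c
          rw [Nat.choose_eq_zero_of_lt (by omega)]
          simp
        rw [h3]
        simp
  rw [h1, sum_div]
  refine sum_congr rfl fun k hk => ?_
  rw [mem_Icc] at hk
  rw [B_eq (by omega : k ≤ n), B_eq (by omega : k ≤ m)]
  field_simp

/-- **The mixed cubic sum.**  For all `n, m ≥ 1`, with `r = min n m` and `s = max n m`,
`∑_{k=1}^r B_{n,k}^2 B_{m,k}` equals the conjectured closed form. -/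
theorem result (n m : ℕ) (hn : 1 ≤ n) (hm : 1 ≤ m) :
    ∑ k ∈ Icc 1 (min n m), B n k ^ 2 * B m k =
      1 / 2 * ((2 * n).choose n : ℚ) ^ 2 * ((2 * m).choose m : ℚ) *
        (1 - ((n : ℚ) + 2 * m) / (min n m : ℕ) * (((n + m).choose n : ℚ))⁻¹ *
          (((n + min n m).choose n : ℚ))⁻¹ *
          ∑ j ∈ range (min n m),
            ((max n m + j).choose (max n m) : ℚ) * ((n + j).choose (n - 1) : ℚ)) := by
  have hn0 : (n : ℚ) ≠ 0 := by positivity
  have hm0 : (m : ℚ) ≠ 0 := by positivity
  have hP : ((n + m).choose n : ℚ) ≠ 0 := by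
    have : 0 < (n + m).choose n := Nat.choose_pos (by omega)
    exact_mod_cast this.ne'
  have ec : c n 0 = ((2 * n).choose n : ℚ) := by unfold c; rw [add_zero]
  have ed : c m 0 = ((2 * m).choose m : ℚ) := by unfold c; rw [add_zero]
  rw [sum_eq_Phi hn hm]
  rcases le_total m n with h | h
  · rw [min_eq_right h, max_eq_left h]
    have hc := closed1 hn (Nat.lt_succ_self n) m
    rw [ec, ed] at hc
    unfold Z1 at hc
    have h1 : Phi (n + 1) n m = n ^ 2 * ((2 * n).choose n : ℚ) ^ 2 * ((2 * m).choose m : ℚ) *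
        (m * ((n + m).choose n : ℚ) ^ 2 - (n + 2 * m) *
          ∑ j ∈ range m, ((n + j).choose n : ℚ) * ((n + j).choose (n - 1) : ℚ)) /
        (2 * ((n + m).choose n : ℚ) ^ 2) := by
      rw [eq_div_iff (by positivity)]
      linear_combination hc
    rw [h1]
    field_simp
  · rw [min_eq_left h, max_eq_right h]
    have hc := closed2 hn (Nat.lt_succ_self n) m
    rw [ec, ed] at hc
    unfold Z2 at hc
    have hQ : ((2 * n).choose n : ℚ) ≠ 0 := by
      have : 0 < (2 * n).choose n := Nat.choose_pos (by omega)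
      exact_mod_cast this.ne'
    have h1 : Phi (n + 1) n m = m * n * ((2 * n).choose n : ℚ) * ((2 * m).choose m : ℚ) *
        (n * ((n + m).choose n : ℚ) * ((2 * n).choose n : ℚ) - (n + 2 * m) *
          ∑ j ∈ range n, ((m + j).choose m : ℚ) * ((n + j).choose (n - 1) : ℚ)) /
        (2 * ((n + m).choose n : ℚ)) := by
      rw [eq_div_iff (by positivity)]
      linear_combination hc
    rw [h1, ← two_mul n]
    field_simp

end Pool.Agent.Results.MP_651eca_nt.MixedCubicSum
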